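import Mathlib
import Pool.Agent.Q316.IntroTuring

/-!
# An introreducible set that is not finitely decomposable
-/

set_option autoImplicit false

namespace Pool.Agent.Results.MP_76bd4c_lc.NotFinitelyDecomposable

/-! ### Definitions used in the statement -/

/-- The characteristic function of a set, as an oracle. -/
noncomputable def chi (A : Set ℕ) : ℕ →. ℕ :=
  open Classical in fun n => Part.some (if n ∈ A then 1 else 0)

/-- The first `n` bits of the characteristic function of `C`. -/
noncomputable def pre (C : Set ℕ) (n : ℕ) : List Bool :=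
  open Classical in (List.range n).map fun i => decide (i ∈ C)

/-- `Φ^C(x) = b`.  A Turing operator is given by a computable `Φ`: on oracle `C` and input `x` it
evaluates `Φ` on longer and longer initial segments of `C`, until a first value is found. -/
def Ev (Φ : List Bool → ℕ → Option Bool) (C : Set ℕ) (x : ℕ) (b : Bool) : Prop :=
  ∃ n, Φ (pre C n) x = some b ∧ ∀ m < n, Φ (pre C m) x = none

/-- `Φ^C = B`. -/
def Computes (Φ : List Bool → ℕ → Option Bool) (C B : Set ℕ) : Prop :=
  ∀ x, (x ∈ B → Ev Φ C x true) ∧ (x ∉ B → Ev Φ C x false)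

/-- `A` is introreducible. -/
def Introreducible (A : Set ℕ) : Prop :=
  A.Infinite ∧ ∀ C ⊆ A, C.Infinite → TuringReducible (chi A) (chi C)

/-- `A ≤^{ui}_T B`: one Turing operator computes `A` from all infinite subsets of `B`. -/
def UILe (A B : Set ℕ) : Prop :=
  ∃ Φ : List Bool → ℕ → Option Bool, Computable₂ Φ ∧ ∀ C ⊆ B, C.Infinite → Computes Φ C A

/-- `A` is finitely decomposable. -/
def FinitelyDecomposable (A : Set ℕ) : Prop :=
  ∃ (n : ℕ) (B : Fin (n + 1) → Set ℕ), A = ⋃ i, B i ∧ ∀ i, UILe A (B i)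

/-- Sanity check: a set is Turing reducible to `C` iff some operator computes it from `C`. -/
theorem turing_iff (B C : Set ℕ) : TuringReducible (chi B) (chi C) ↔
    ∃ Φ : List Bool → ℕ → Option Bool, Computable₂ Φ ∧ Computes Φ C B :=
  Pool.Agent.Q316.Intro.turing_iff

/-- **There is an introreducible set which is not finitely decomposable.** -/
theorem result : ∃ A : Set ℕ, Introreducible A ∧ ¬ FinitelyDecomposable A := by
  classical
  obtain ⟨κ, hκ⟩ := Pool.Agent.Q316.Intro.exists_kappa
  refine ⟨Pool.Agent.Q316.Intro.A κ, ⟨Pool.Agent.Q316.Intro.el_infinite κ, fun C hC hi =>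
    Pool.Agent.Q316.Intro.introreducible_A hC hi⟩, ?_⟩
  rintro ⟨n, B, hA, hB⟩
  choose Φ hΦ h using hB
  obtain ⟨e, -, M, hM, hgood⟩ := hκ (n + 1) Φ hΦ 0
  -- one of the pieces contains infinitely many elements of the column `e` with length in `M`
  have h1 : ∃ i, {m | m ∈ M ∧ e < m ∧ Pool.Agent.Q316.Intro.el κ e m ∈ B i}.Infinite := by
    by_contra hcon
    push Not at hcon
    have h2 : (⋃ i, {m | m ∈ M ∧ e < m ∧ Pool.Agent.Q316.Intro.el κ e m ∈ B i}).Finite :=
      Set.finite_iUnion fun i => hcon i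
    refine hM ((h2.union (Set.finite_Iic e)).subset fun m hm => ?_)
    by_cases hme : e < m
    · left
      have : Pool.Agent.Q316.Intro.el κ e m ∈ Pool.Agent.Q316.Intro.A κ := ⟨e, m, hme, rfl⟩
      rw [hA] at this
      obtain ⟨i, hi⟩ := Set.mem_iUnion.1 this
      exact Set.mem_iUnion.2 ⟨i, hm, hme, hi⟩
    · right; exact not_lt.1 hme
  obtain ⟨i, hi⟩ := h1
  set D := {m | m ∈ M ∧ e < m ∧ Pool.Agent.Q316.Intro.el κ e m ∈ B i} with hD
  have h2 : Pool.Agent.Q316.Intro.col κ e D ⊆ B i := by
    rintro x ⟨m, hm, -, rfl⟩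
    exact hm.2.2
  refine hgood D (fun m hm => hm.1) hi i ?_
  refine Pool.Agent.Q316.Intro.ans_of_computes
    (h i _ h2 (Pool.Agent.Q316.Intro.col_infinite hi)) subset_rfl ?_
  refine ⟨Pool.Agent.Q316.Intro.el κ (e + 1) (e + 2), ⟨e + 1, e + 2, by omega, rfl⟩, ?_⟩
  rw [Pool.Agent.Q316.Intro.rev_el]
  simp

end Pool.Agent.Results.MP_76bd4c_lc.NotFinitelyDecomposable
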